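import Pool.Agent.Helper53.PT.GoalsB

/-!
# MP_705522_gt, packet PT-KSMALL: `K > 0` when all coordinates are at most `1/128`
-/

namespace Pool.Agent.Helper38.PT

open MeasureTheory Set Filter Topology
open Pool.Agent.Helper53.PT

/-! ## Elementary bounds -/

theorem mo_half_two : mo (1 / 2) 2 = 3 := by
  unfold mo
  have h0 : (0 : ℝ) < Real.Gamma (1 / 2) := Real.Gamma_pos_of_pos (by norm_num)
  have h1 : Real.Gamma (1 + 1 / 2) = 1 / 2 * Real.Gamma (1 / 2) := by
    rw [add_comm, Real.Gamma_add_one (by norm_num)]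
  have h2 : Real.Gamma (1 + (2 * ((2 : ℕ) : ℝ) - 1) * (1 / 2)) = 3 / 4 * Real.Gamma (1 / 2) := by
    have e : (1 + (2 * ((2 : ℕ) : ℝ) - 1) * (1 / 2) : ℝ) = (1 / 2 + 1) + 1 := by norm_num
    rw [e, Real.Gamma_add_one (by norm_num), Real.Gamma_add_one (by norm_num)]
    ring
  have h3 : Real.Gamma (1 - 1 / 2) = Real.Gamma (1 / 2) := by norm_num
  rw [h2, h1, h3]
  field_simp
  norm_num

theorem mo_two_le {θ : ℝ} (h0 : 0 < θ) (h1 : θ < 1 / 2) : mo θ 2 ≤ 3 := by
  have := mo_mono h0 h1.le le_rfl 2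
  rwa [mo_half_two] at this

theorem lip0 {θ : ℝ} (h0 : 0 < θ) (h1 : θ < 1 / 2) {x y : ℝ} (hy : 0 ≤ y) (hxy : y ≤ x) :
    |f0 θ y - f0 θ x| ≤ 1 / 2 * (x - y) := by
  have h := (convex_Ici (0 : ℝ)).norm_image_sub_le_of_norm_hasDerivWithin_le (f := f0 θ)
    (f' := fun x => -(f1 θ x) / 2) (C := 1 / 2) (x := x) (y := y)
    (fun x _ => (hasDerivAt_f0 h0 h1 x).hasDerivWithinAt)
    (fun x hx => by
      have := (aBD h0 h1 (x := x) hx).2.2.2.1
      rw [Real.norm_eq_abs, abs_div, abs_neg, abs_two]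
      linarith) (le_trans hy hxy) hy
  rw [Real.norm_eq_abs, Real.norm_eq_abs, abs_sub_comm y x, abs_of_nonneg (sub_nonneg.2 hxy)] at h
  exact h

theorem lip1 {θ : ℝ} (h0 : 0 < θ) (h1 : θ < 1 / 2) {x y : ℝ} (hy : 0 ≤ y) (hxy : y ≤ x) :
    |f1 θ y - f1 θ x| ≤ 1 / 2 * (x - y) := by
  have h := (convex_Ici (0 : ℝ)).norm_image_sub_le_of_norm_hasDerivWithin_le (f := f1 θ)
    (f' := fun x => f2 θ x) (C := 1 / 2) (x := x) (y := y)
    (fun x _ => (hasDerivAt_f1 h0 h1 x).hasDerivWithinAt)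
    (fun x hx => by
      have h2 := (aBD h0 h1 (x := x) hx).2.2.2.2.2.1
      have h3 := mo_two_le h0 h1
      rw [Real.norm_eq_abs]
      linarith) (le_trans hy hxy) hy
  rw [Real.norm_eq_abs, Real.norm_eq_abs, abs_sub_comm y x, abs_of_nonneg (sub_nonneg.2 hxy)] at h
  exact h

/-- `|kr x y| ≤ x - y` -/
theorem kr_le {θ : ℝ} (h0 : 0 < θ) (h1 : θ < 1 / 2) {x y : ℝ} (hy : 0 ≤ y) (hxy : y ≤ x) :
    |kr θ x y| ≤ x - y := by
  have e : kr θ x y = f1 θ x * (f0 θ y - f0 θ x) - f0 θ x * (f1 θ y - f1 θ x) := by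
    unfold kr; ring
  have hx : 0 ≤ x := le_trans hy hxy
  have b1 := (aBD h0 h1 hx).2.2.2.1
  have b0 := (aBD h0 h1 hx).1
  have l0 := lip0 h0 h1 hy hxy
  have l1 := lip1 h0 h1 hy hxy
  rw [e]
  calc |f1 θ x * (f0 θ y - f0 θ x) - f0 θ x * (f1 θ y - f1 θ x)|
      ≤ |f1 θ x * (f0 θ y - f0 θ x)| + |f0 θ x * (f1 θ y - f1 θ x)| := abs_sub _ _
    _ = |f1 θ x| * |f0 θ y - f0 θ x| + |f0 θ x| * |f1 θ y - f1 θ x| := by rw [abs_mul, abs_mul]
    _ ≤ 1 * (1 / 2 * (x - y)) + 1 * (1 / 2 * (x - y)) := by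
        gcongr
    _ = x - y := by ring

/-- `exp(-vX) ≤ exp(-v X₀) (X₀/X)²` for `X ≥ X₀`, `v X₀ ≥ 2`. -/
theorem exp_le {v X0 X : ℝ} (hX0 : 0 < X0) (hX : X0 ≤ X) (hv : 2 ≤ v * X0) :
    Real.exp (-(v * X)) ≤ Real.exp (-(v * X0)) * (X0 ^ 2 / X ^ 2) := by
  have hXp : 0 < X := lt_of_lt_of_le hX0 hX
  set s := X / X0 with hs
  have hs1 : 1 ≤ s := by rw [hs, le_div_iff₀ hX0]; linarith
  have h1 : s ≤ Real.exp (s - 1) := by
    have := Real.add_one_le_exp (s - 1)
    linarith
  have h2 : s ^ 2 ≤ Real.exp (2 * (s - 1)) := by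
    have : s ^ 2 ≤ Real.exp (s - 1) ^ 2 := by gcongr
    rwa [← Real.exp_nat_mul] at this
  have hX2 : X = s * X0 := by rw [hs]; field_simp
  have h3 : X0 ^ 2 / X ^ 2 = 1 / s ^ 2 := by
    rw [hX2]; field_simp
  rw [h3, mul_one_div, le_div_iff₀ (by positivity)]
  calc Real.exp (-(v * X)) * s ^ 2 ≤ Real.exp (-(v * X)) * Real.exp (2 * (s - 1)) := by gcongr
    _ = Real.exp (-(v * X) + 2 * (s - 1)) := by rw [Real.exp_add]
    _ ≤ Real.exp (-(v * X0)) := by
        apply Real.exp_le_exp.2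
        rw [hX2]
        nlinarith

/-- Product of exponential bounds. -/
theorem prod_exp_le {θ : ℝ} {n : ℕ} (S : Finset (Fin n)) (t : Fin n → ℝ) (μ X : ℝ)
    (h : ∀ l ∈ S, |f0 θ (t l * X)| ≤ Real.exp (-(μ * (t l * X)))) :
    |∏ l ∈ S, f0 θ (t l * X)| ≤ Real.exp (-(μ * ((∑ l ∈ S, t l) * X))) := by
  rw [Finset.abs_prod]
  calc ∏ l ∈ S, |f0 θ (t l * X)| ≤ ∏ l ∈ S, Real.exp (-(μ * (t l * X))) :=
        Finset.prod_le_prod (fun l _ => abs_nonneg _) h
    _ = Real.exp (-(μ * ((∑ l ∈ S, t l) * X))) := by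
        rw [← Real.exp_sum]
        congr 1
        rw [Finset.sum_mul, Finset.mul_sum, ← Finset.sum_neg_distrib]

/-! ## The main part of the integral -/

theorem exp_lower {s : ℝ} (hs : s ≤ 8) : (1 - s / 8) ^ 8 ≤ Real.exp (-s) := by
  have h1 : 1 - s / 8 ≤ Real.exp (-(s / 8)) := by
    have := Real.add_one_le_exp (-(s / 8))
    linarith
  have h0 : 0 ≤ 1 - s / 8 := by linarith
  calc (1 - s / 8) ^ 8 ≤ Real.exp (-(s / 8)) ^ 8 := by gcongr
    _ = Real.exp (-s) := by
        rw [← Real.exp_nat_mul]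
        congr 1
        push_cast
        ring

theorem main_int : 1 ≤ ∫ ξ in (0 : ℝ)..4, ξ ^ 2 * Real.exp (-ξ ^ 2 / 2) := by
  have hF : ∀ ξ ∈ Set.uIcc (0 : ℝ) 4, HasDerivAt (fun ξ : ℝ => ξ ^ 3 / 3 - 8 / 16 * (ξ ^ 5 / 5)
      + 28 / 16 ^ 2 * (ξ ^ 7 / 7) - 56 / 16 ^ 3 * (ξ ^ 9 / 9) + 70 / 16 ^ 4 * (ξ ^ 11 / 11)
      - 56 / 16 ^ 5 * (ξ ^ 13 / 13) + 28 / 16 ^ 6 * (ξ ^ 15 / 15) - 8 / 16 ^ 7 * (ξ ^ 17 / 17)
      + 1 / 16 ^ 8 * (ξ ^ 19 / 19)) (ξ ^ 2 * (1 - ξ ^ 2 / 16) ^ 8) ξ := by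
    intro ξ _
    have p : ∀ k : ℕ, HasDerivAt (fun ξ : ℝ => ξ ^ (k + 1) / ((k : ℝ) + 1)) (ξ ^ k) ξ := by
      intro k
      have h := (hasDerivAt_pow (k + 1) ξ).div_const ((k : ℝ) + 1)
      have : (k : ℝ) + 1 ≠ 0 := by positivity
      refine h.congr_deriv ?_
      rw [Nat.add_sub_cancel, div_eq_iff this]
      push_cast
      ring
    have q : ∀ (k : ℕ) (c : ℝ), c = (k : ℝ) + 1 → HasDerivAt (fun ξ : ℝ => ξ ^ (k + 1) / c) (ξ ^ k) ξ := by
      intro k c hc
      rw [hc]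
      exact p k
    have h := ((((((((q 2 3 (by norm_num)).fun_sub ((q 4 5 (by norm_num)).const_mul (8 / 16))).fun_add
      ((q 6 7 (by norm_num)).const_mul (28 / 16 ^ 2))).fun_sub
      ((q 8 9 (by norm_num)).const_mul (56 / 16 ^ 3))).fun_add
      ((q 10 11 (by norm_num)).const_mul (70 / 16 ^ 4))).fun_sub
      ((q 12 13 (by norm_num)).const_mul (56 / 16 ^ 5))).fun_add
      ((q 14 15 (by norm_num)).const_mul (28 / 16 ^ 6))).fun_sub
      ((q 16 17 (by norm_num)).const_mul (8 / 16 ^ 7))).fun_add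
      ((q 18 19 (by norm_num)).const_mul (1 / 16 ^ 8))
    refine h.congr_deriv ?_
    ring
  have h1 : ∫ ξ in (0 : ℝ)..4, ξ ^ 2 * (1 - ξ ^ 2 / 16) ^ 8 ≤
      ∫ ξ in (0 : ℝ)..4, ξ ^ 2 * Real.exp (-ξ ^ 2 / 2) := by
    apply intervalIntegral.integral_mono_on (by norm_num)
    · exact (by fun_prop : Continuous fun ξ : ℝ => ξ ^ 2 * (1 - ξ ^ 2 / 16) ^ 8).intervalIntegrable _ _
    · exact (by fun_prop : Continuous fun ξ : ℝ => ξ ^ 2 * Real.exp (-ξ ^ 2 / 2)).intervalIntegrable _ _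
    · intro ξ hξ
      have h8 : ξ ^ 2 / 2 ≤ 8 := by nlinarith [hξ.1, hξ.2]
      have h := exp_lower h8
      have e1 : (1 - ξ ^ 2 / 2 / 8) = 1 - ξ ^ 2 / 16 := by ring
      have e2 : -(ξ ^ 2 / 2) = -ξ ^ 2 / 2 := by ring
      rw [e1, e2] at h
      exact mul_le_mul_of_nonneg_left h (sq_nonneg ξ)
  refine le_trans ?_ h1
  rw [intervalIntegral.integral_eq_sub_of_hasDerivAt hF
    ((by fun_prop : Continuous fun ξ : ℝ => ξ ^ 2 * (1 - ξ ^ 2 / 16) ^ 8).intervalIntegrable _ _)]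
  norm_num

/-! ## Numerical estimates of the tail -/

theorem exp40 : (2.35e17 : ℝ) ≤ Real.exp 40 := by
  have h := Real.exp_one_gt_d9
  have h2 : (2.7182818283 : ℝ) ^ 40 ≤ Real.exp 1 ^ 40 := by
    gcongr
  rw [← Real.exp_nat_mul] at h2
  norm_num at h2 ⊢
  linarith

theorem tail_num {u z σ1 σ : ℝ} (hu : 128 ≤ u) (hz : 5 / 2 ≤ z) (hz16 : z ≤ 16)
    (h1 : 1 / 25 ≤ σ1) (h2 : 1 / 50 ≤ σ) :
    (Real.exp (-(σ1 * (z * (u - 2)))) * (z * u) ^ 2 + Real.exp (-(σ * (16 * (u - 2)))) * (16 * u) ^ 2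
      + Real.exp (-(σ * (64 * (u - 2)))) * (64 * u) ^ 2) / √(z * u) ≤
    46 * (128 * z) * Real.exp (-(126 * σ1 * z)) + 9e-13 := by
  have hu0 : 0 < u := by linarith
  have hz0 : 0 < z := by linarith
  set s := u / 128 with hs
  have hs1 : 1 ≤ s := by rw [hs, le_div_iff₀ (by norm_num)]; linarith
  have hus : u = 128 * s := by rw [hs]; ring
  have hs0 : 0 < s := by linarith
  have hss : s ^ 2 ≤ Real.exp (2 * (s - 1)) := by
    have h := Real.add_one_le_exp (s - 1)
    have h' : s ≤ Real.exp (s - 1) := by linarith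
    have : s ^ 2 ≤ Real.exp (s - 1) ^ 2 := by gcongr
    rwa [← Real.exp_nat_mul] at this
  have key : ∀ v w c : ℝ, 2 ≤ w → v = -c - (s - 1) * w → s ^ 2 * Real.exp v ≤ Real.exp (-c) := by
    intro v w c hw hv
    calc s ^ 2 * Real.exp v ≤ Real.exp (2 * (s - 1)) * Real.exp v := by gcongr
      _ = Real.exp (2 * (s - 1) + v) := by rw [Real.exp_add]
      _ ≤ Real.exp (-c) := by
        apply Real.exp_le_exp.2
        rw [hv]
        nlinarith
  have hsz : (1 : ℝ) / 10 ≤ σ1 * z := by nlinarith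
  have k0 : s ^ 2 * Real.exp (-(σ1 * (z * (u - 2)))) ≤ Real.exp (-(126 * σ1 * z)) :=
    key _ (128 * (σ1 * z)) _ (by linarith) (by rw [hus]; ring)
  have k16 : s ^ 2 * Real.exp (-(σ * (16 * (u - 2)))) ≤ Real.exp (-(2016 * σ)) :=
    key _ (2048 * σ) _ (by linarith) (by rw [hus]; ring)
  have hE : Real.exp (-(2016 * σ)) ≤ 1 / (1.32 * 2.35e17) := by
    have e1 : (1.32 : ℝ) * 2.35e17 ≤ Real.exp (2016 * σ) := by
      have h32 : (1.32 : ℝ) ≤ Real.exp 0.32 := by
        have := Real.add_one_le_exp (0.32 : ℝ)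
        linarith
      calc (1.32 : ℝ) * 2.35e17 ≤ Real.exp 0.32 * Real.exp 40 :=
            mul_le_mul h32 exp40 (by norm_num) (Real.exp_pos _).le
        _ = Real.exp (0.32 + 40) := by rw [Real.exp_add]
        _ ≤ Real.exp (2016 * σ) := by
          apply Real.exp_le_exp.2
          linarith
    rw [Real.exp_neg, ← one_div]
    exact one_div_le_one_div_of_le (by norm_num) e1
  have k64 : Real.exp (-(σ * (64 * (u - 2)))) ≤
      Real.exp (-(σ * (16 * (u - 2)))) * (1 / 121.96) := by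
    have e : -(σ * (64 * (u - 2))) = -(σ * (16 * (u - 2))) + -(48 * (σ * (u - 2))) := by ring
    rw [e, Real.exp_add]
    have h3 : (120.96 : ℝ) ≤ 48 * (σ * (u - 2)) := by nlinarith
    have h4 : Real.exp (-(48 * (σ * (u - 2)))) ≤ 1 / 121.96 := by
      rw [Real.exp_neg, ← one_div]
      apply one_div_le_one_div_of_le (by norm_num)
      have := Real.add_one_le_exp (48 * (σ * (u - 2)))
      linarith
    gcongr
  have hr : (17.88 : ℝ) ≤ √(z * u) := by
    apply Real.le_sqrt_of_sq_le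
    nlinarith
  have hrp : 0 < √(z * u) := by linarith
  -- part 0
  have p0 : Real.exp (-(σ1 * (z * (u - 2)))) * (z * u) ^ 2 / √(z * u) ≤
      46 * (128 * z) * Real.exp (-(126 * σ1 * z)) := by
    have e1 : (z * u) ^ 2 / √(z * u) = (z * u) * √(z * u) := by
      rw [div_eq_iff hrp.ne']
      have := Real.mul_self_sqrt (by positivity : 0 ≤ z * u)
      rw [mul_assoc, this]
      ring
    have e2 : √(z * u) ≤ 46 * s := by
      apply Real.sqrt_le_iff.2
      refine ⟨by positivity, ?_⟩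
      rw [hus]
      nlinarith [mul_pos hs0 hs0, mul_le_mul_of_nonneg_left hz16 hs0.le]
    rw [mul_div_assoc, e1]
    calc Real.exp (-(σ1 * (z * (u - 2)))) * (z * u * √(z * u))
        ≤ Real.exp (-(σ1 * (z * (u - 2)))) * (z * u * (46 * s)) := by gcongr
      _ = 46 * (128 * z) * (s ^ 2 * Real.exp (-(σ1 * (z * (u - 2))))) := by
          rw [hus]; ring
      _ ≤ 46 * (128 * z) * Real.exp (-(126 * σ1 * z)) := by gcongr
  have p1 : (Real.exp (-(σ * (16 * (u - 2)))) * (16 * u) ^ 2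
      + Real.exp (-(σ * (64 * (u - 2)))) * (64 * u) ^ 2) / √(z * u) ≤ 9e-13 := by
    rw [div_le_iff₀ hrp]
    have q1 : Real.exp (-(σ * (16 * (u - 2)))) * (16 * u) ^ 2 ≤ 4194304 / (1.32 * 2.35e17) := by
      calc Real.exp (-(σ * (16 * (u - 2)))) * (16 * u) ^ 2
          = 4194304 * (s ^ 2 * Real.exp (-(σ * (16 * (u - 2))))) := by rw [hus]; ring
        _ ≤ 4194304 * (1 / (1.32 * 2.35e17)) := by
            have := le_trans k16 hE
            gcongr
        _ = 4194304 / (1.32 * 2.35e17) := by ring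
    have q2 : Real.exp (-(σ * (64 * (u - 2)))) * (64 * u) ^ 2 ≤
        16 / 121.96 * (4194304 / (1.32 * 2.35e17)) := by
      calc Real.exp (-(σ * (64 * (u - 2)))) * (64 * u) ^ 2
          ≤ Real.exp (-(σ * (16 * (u - 2)))) * (1 / 121.96) * (64 * u) ^ 2 := by gcongr
        _ = 16 / 121.96 * (Real.exp (-(σ * (16 * (u - 2)))) * (16 * u) ^ 2) := by ring
        _ ≤ _ := by gcongr
    calc _ ≤ 4194304 / (1.32 * 2.35e17) + 16 / 121.96 * (4194304 / (1.32 * 2.35e17)) :=
          add_le_add q1 q2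
      _ ≤ 9e-13 * 17.88 := by norm_num
      _ ≤ 9e-13 * √(z * u) := by gcongr
  have e : (Real.exp (-(σ1 * (z * (u - 2)))) * (z * u) ^ 2 + Real.exp (-(σ * (16 * (u - 2)))) * (16 * u) ^ 2
      + Real.exp (-(σ * (64 * (u - 2)))) * (64 * u) ^ 2) / √(z * u) =
      Real.exp (-(σ1 * (z * (u - 2)))) * (z * u) ^ 2 / √(z * u) +
      (Real.exp (-(σ * (16 * (u - 2)))) * (16 * u) ^ 2
      + Real.exp (-(σ * (64 * (u - 2)))) * (64 * u) ^ 2) / √(z * u) := by ring
  rw [e]
  exact add_le_add p0 p1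

/-! ## The other factors -/

theorem rest_bound (hSIG : GSIG) {θ z g c0 c1 c2 σ σ1 : ℝ} (hFP : FP θ g c0 c1 c2) (hc0 : 0 < c0)
    (hσ : ∀ y, 0 ≤ y → y ≤ 64 → |f0 θ y| ≤ Real.exp (-(σ * y))) (hσc : σ * 64 ≤ -Real.log c0)
    (hσ50 : 1 / 50 ≤ σ) (hσ1 : ∀ y, 0 ≤ y → y ≤ 16 → |f0 θ y| ≤ Real.exp (-(σ1 * y)))
    (hσ125 : 1 / 25 ≤ σ1) (hz : 5 / 2 ≤ z) {n : ℕ} (S : Finset (Fin n)) (t : Fin n → ℝ)
    (ht0 : ∀ l, 0 ≤ t l) {i : Fin n} (hmm : ∀ l, t l ≤ t i) (ha0 : 0 < t i) (hti : t i ≤ 1 / 128)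
    (hRge' : 1 - 2 * t i ≤ ∑ l ∈ S, t l) {X : ℝ} (hX : z * (1 / t i) ≤ X) :
    |∏ l ∈ S, f0 θ (t l * X)| ≤
      (Real.exp (-(σ1 * (z * (1 / t i - 2)))) * (z * (1 / t i)) ^ 2 +
        Real.exp (-(σ * (16 * (1 / t i - 2)))) * (16 * (1 / t i)) ^ 2 +
        Real.exp (-(σ * (64 * (1 / t i - 2)))) * (64 * (1 / t i)) ^ 2) / X ^ 2 := by
  set u : ℝ := 1 / t i with hu
  have hau : t i * u = 1 := by rw [hu]; field_simp
  have hu128 : 128 ≤ u := by
    rw [hu, le_div_iff₀ ha0]
    linarith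
  have hu0 : 0 < u := by linarith
  have hz0 : 0 < z := by linarith
  set E0 := Real.exp (-(σ1 * (z * (u - 2)))) with hE0
  set E16 := Real.exp (-(σ * (16 * (u - 2)))) with hE16
  set E64 := Real.exp (-(σ * (64 * (u - 2)))) with hE64
  set M := E0 * (z * u) ^ 2 + E16 * (16 * u) ^ 2 + E64 * (64 * u) ^ 2 with hM
  have hM0 : 0 < M := by positivity
  set R := ∑ l ∈ S, t l with hRdef
  have hRge : 1 - 2 * t i ≤ R := hRge'
  have hX0 : 0 < X := lt_of_lt_of_le (by positivity) hX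
  have hlX : ∀ l, 0 ≤ t l * X ∧ t l * X ≤ t i * X := fun l =>
    ⟨mul_nonneg (ht0 l) hX0.le, mul_le_mul_of_nonneg_right (hmm l) hX0.le⟩
  have hM' : ∀ A : ℝ, A ≤ M → A / X ^ 2 ≤ M / X ^ 2 := fun A hA => by gcongr
  have hRr : ∀ r : ℝ, 0 ≤ r → r * (u - 2) ≤ R * (r * u) := by
    intro r hr
    have : r * (u - 2) = (1 - 2 * t i) * (r * u) := by
      have : (1 - 2 * t i) * (r * u) = r * u - 2 * r * (t i * u) := by ring
      rw [this, hau]
      ring
    rw [this]
    exact mul_le_mul_of_nonneg_right hRge (by positivity)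
  rcases le_or_gt (t i * X) 16 with hc | hc
  · have h2 := prod_exp_le (θ := θ) S t σ1 X fun l _ => hσ1 _ (hlX l).1 (le_trans (hlX l).2 hc)
    rw [← hRdef] at h2
    have h3 := hRr z hz0.le
    have hv : 2 ≤ (σ1 * R) * (z * u) := by
      have e : (σ1 * R) * (z * u) = σ1 * (R * (z * u)) := by ring
      rw [e]
      have : 315 ≤ R * (z * u) := le_trans (by nlinarith) h3
      nlinarith
    have h4 := exp_le (v := σ1 * R) (X0 := z * u) (X := X) (by positivity) hX hv
    have h5 : Real.exp (-(σ1 * R * (z * u))) ≤ E0 := by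
      apply Real.exp_le_exp.2
      have : σ1 * (z * (u - 2)) ≤ σ1 * (R * (z * u)) :=
        mul_le_mul_of_nonneg_left h3 (by linarith)
      linarith
    calc |∏ l ∈ S, f0 θ (t l * X)| ≤ Real.exp (-(σ1 * (R * X))) := h2
      _ = Real.exp (-(σ1 * R * X)) := by ring_nf
      _ ≤ E0 * ((z * u) ^ 2 / X ^ 2) := le_trans h4 (by gcongr)
      _ = (E0 * (z * u) ^ 2) / X ^ 2 := by ring
      _ ≤ M / X ^ 2 := hM' _ (by
          have : 0 < E16 * (16 * u) ^ 2 := by positivity
          have : 0 < E64 * (64 * u) ^ 2 := by positivity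
          linarith)
  · rcases le_or_gt (t i * X) 64 with hc' | hc'
    · have hX16 : 16 * u ≤ X := by
        have : t i * (16 * u) ≤ t i * X := by
          have : t i * (16 * u) = 16 * (t i * u) := by ring
          rw [this, hau]
          linarith
        exact le_of_mul_le_mul_left this ha0
      have h2 := prod_exp_le (θ := θ) S t σ X fun l _ => hσ _ (hlX l).1 (le_trans (hlX l).2 hc')
      rw [← hRdef] at h2
      have h3 := hRr 16 (by norm_num)
      have hv : 2 ≤ (σ * R) * (16 * u) := by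
        have e : (σ * R) * (16 * u) = σ * (R * (16 * u)) := by ring
        rw [e]
        have : 2016 ≤ R * (16 * u) := le_trans (by nlinarith) h3
        nlinarith
      have h4 := exp_le (v := σ * R) (X0 := 16 * u) (X := X) (by positivity) hX16 hv
      have h5 : Real.exp (-(σ * R * (16 * u))) ≤ E16 := by
        apply Real.exp_le_exp.2
        have : σ * (16 * (u - 2)) ≤ σ * (R * (16 * u)) :=
          mul_le_mul_of_nonneg_left h3 (by linarith)
        linarith
      calc |∏ l ∈ S, f0 θ (t l * X)| ≤ Real.exp (-(σ * (R * X))) := h2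
        _ = Real.exp (-(σ * R * X)) := by ring_nf
        _ ≤ E16 * ((16 * u) ^ 2 / X ^ 2) := le_trans h4 (by gcongr)
        _ = (E16 * (16 * u) ^ 2) / X ^ 2 := by ring
        _ ≤ M / X ^ 2 := hM' _ (by
            have : 0 < E0 * (z * u) ^ 2 := by positivity
            have : 0 < E64 * (64 * u) ^ 2 := by positivity
            linarith)
    · -- large argument
      set x := t i * X with hx
      have hx64 : 64 ≤ x := hc'.le
      have hx0 : 0 < x := by linarith
      set c := Real.exp (-(64 * σ)) with hcdef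
      have hcc : c0 ≤ c := by
        have : Real.log c0 ≤ -(64 * σ) := by linarith
        calc c0 = Real.exp (Real.log c0) := (Real.exp_log hc0).symm
          _ ≤ c := Real.exp_le_exp.2 this
      have hlogc : Real.log c = -(64 * σ) := Real.log_exp _
      have hFP' : FP θ g c c1 c2 := by
        refine ⟨hFP.g0, hFP.g1, fun x hx => ?_, hFP.p1, hFP.p2⟩
        refine le_trans (hFP.p0 x hx) ?_
        have : 0 ≤ (64 / x) ^ g := Real.rpow_nonneg (by positivity) _
        exact mul_le_mul_of_nonneg_right hcc this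
      have hs := (hSIG θ).2.2 g c c1 c2 hFP' (Real.exp_pos _) (by
          rw [hlogc]
          have := hFP.g1
          linarith) (fun y hy hy' => by
          rw [hlogc]
          have := hσ y hy hy'
          have e : -(64 * σ) / 64 * y = -(σ * y) := by ring
          rw [e]
          exact this) x hx64
      set L := Real.log (c * (64 / x) ^ g) with hL
      have h2 := prod_exp_le (θ := θ) S t (-(L / x)) X fun l _ => by
        have := hs _ (hlX l).1 (hlX l).2
        have e : -(-(L / x) * (t l * X)) = L / x * (t l * X) := by ring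
        rw [e]
        exact this
      rw [← hRdef] at h2
      have hLval : L = -(64 * σ) - g * Real.log (x / 64) := by
        rw [hL, Real.log_mul (Real.exp_pos _).ne' (Real.rpow_pos_of_pos (by positivity) _).ne',
          hlogc, Real.log_rpow (by positivity)]
        have : Real.log (64 / x) = -Real.log (x / 64) := by
          rw [← Real.log_inv]
          congr 1
          field_simp
        rw [this]
        ring
      have hlog0 : 0 ≤ Real.log (x / 64) := Real.log_nonneg (by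
        rw [le_div_iff₀ (by norm_num)]
        linarith)
      have hg2 : 1 / 2 ≤ g := hFP.g0
      have hq : u - 2 ≤ R * X / x := by
        rw [hx, le_div_iff₀ (by positivity)]
        have : (u - 2) * (t i * X) = (1 - 2 * t i) * X := by
          have : (u - 2) * (t i * X) = (t i * u) * X - 2 * t i * X := by ring
          rw [this, hau]
          ring
        rw [this]
        exact mul_le_mul_of_nonneg_right hRge hX0.le
      have hexp : -(-(L / x) * (R * X)) ≤
          -(σ * (64 * (u - 2))) + -(2 * Real.log (x / 64)) := by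
        have e : -(-(L / x) * (R * X)) = L * (R * X / x) := by
          field_simp
        rw [e]
        have hL0 : L ≤ 0 := by
          rw [hLval]
          have : 0 ≤ g * Real.log (x / 64) := by positivity
          nlinarith
        have e1 : L * (R * X / x) ≤ L * (u - 2) :=
          mul_le_mul_of_nonpos_left hq hL0
        refine le_trans e1 ?_
        rw [hLval]
        have e2 : 2 * Real.log (x / 64) ≤ (u - 2) * g * Real.log (x / 64) := by
          apply mul_le_mul_of_nonneg_right _ hlog0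
          nlinarith
        nlinarith
      calc |∏ l ∈ S, f0 θ (t l * X)| ≤ Real.exp (-(-(L / x) * (R * X))) := h2
        _ ≤ Real.exp (-(σ * (64 * (u - 2))) + -(2 * Real.log (x / 64))) :=
            Real.exp_le_exp.2 hexp
        _ = E64 * ((64 * u) ^ 2 / X ^ 2) := by
            rw [Real.exp_add]
            congr 1
            have e : -(2 * Real.log (x / 64)) = Real.log (((64 / x)) ^ 2) := by
              rw [Real.log_pow]
              have : Real.log (64 / x) = -Real.log (x / 64) := by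
                rw [← Real.log_inv]
                congr 1
                field_simp
              rw [this]
              push_cast
              ring
            rw [e, Real.exp_log (by positivity), hx, hu]
            field_simp
        _ = (E64 * (64 * u) ^ 2) / X ^ 2 := by ring
        _ ≤ M / X ^ 2 := hM' _ (by
            have : 0 < E0 * (z * u) ^ 2 := by positivity
            have : 0 < E16 * (16 * u) ^ 2 := by positivity
            linarith)

/-! ## The theorem -/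

theorem gKSMALL : GKSMALL := by
  intro hRL hKR hKCC hSIG θ z m xW xD yN g c0 c1 c2 σ σ1 ρ l8 hFA hFP hc0 hg hσ hσc hσ50 hσ1 hσ125
    hz hz16 hρr hl8 hmain hρ n t i j hn hSx hji hmm hti
  have h0 : 0 < θ := by linarith [hFA.th0]
  have h1 : θ < 1 / 2 := hFA.th1
  have ht0 := hSx.1
  have ht1 := hSx.2
  have hb0 : 0 ≤ t j := ht0 j
  have ha0 : 0 < t i := lt_of_le_of_lt hb0 hji
  have hij : i ≠ j := by
    rintro rfl
    exact lt_irrefl _ hji
  have hpos : ∀ x, 0 ≤ x → x < z → 0 < f0 θ x := (hRL θ z m xW xD yN hFA).2.1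
  have hkr1 := (hKR hRL θ z m xW xD yN hFA).1
  show 0 < ∫ ξ in Ioi (0 : ℝ), KI θ t i j ξ
  set S : Finset (Fin n) := (Finset.univ.erase i).erase j with hS
  have hjm : j ∈ Finset.univ.erase i := Finset.mem_erase.2 ⟨hij.symm, Finset.mem_univ j⟩
  have hR : ∑ l ∈ S, t l = 1 - t i - t j := by
    have e1 := Finset.add_sum_erase Finset.univ t (Finset.mem_univ i)
    have e2 := Finset.add_sum_erase (Finset.univ.erase i) t hjm
    linarith
  -- continuity
  have hcont : Continuous (KI θ t i j) := by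
    have cf0 := continuous_f0 h0 h1
    have cf1 := continuous_f1 h0 h1
    unfold KI kr
    refine Continuous.mul (Continuous.sub (Continuous.mul (cf1.comp (by fun_prop))
      (cf0.comp (by fun_prop))) (Continuous.mul (cf0.comp (by fun_prop))
      (cf1.comp (by fun_prop)))) (continuous_finsetProd _ fun l _ => cf0.comp (by fun_prop))
  set u : ℝ := 1 / t i with hu
  have hau : t i * u = 1 := by rw [hu]; field_simp
  have hu128 : 128 ≤ u := by
    rw [hu, le_div_iff₀ ha0]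
    linarith
  have hu0 : 0 < u := by linarith
  have hz0 : 0 < z := by linarith
  set E0 := Real.exp (-(σ1 * (z * (u - 2)))) with hE0
  set E16 := Real.exp (-(σ * (16 * (u - 2)))) with hE16
  set E64 := Real.exp (-(σ * (64 * (u - 2)))) with hE64
  set M := E0 * (z * u) ^ 2 + E16 * (16 * u) ^ 2 + E64 * (64 * u) ^ 2 with hM
  have hM0 : 0 < M := by positivity
  set s0 := √(z * u) with hs0
  have hs0p : 0 < s0 := Real.sqrt_pos.2 (by positivity)
  have hs0sq : s0 ^ 2 = z * u := Real.sq_sqrt (by positivity)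
  have hs04 : 4 < s0 := by
    have : (4 : ℝ) ^ 2 < s0 ^ 2 := by rw [hs0sq]; nlinarith
    exact lt_of_pow_lt_pow_left₀ 2 hs0p.le this
  have hRge : 1 - 2 * t i ≤ 1 - t i - t j := by linarith
  -- bound of the rest
  have hrest : ∀ X : ℝ, z * u ≤ X → |∏ l ∈ S, f0 θ (t l * X)| ≤ M / X ^ 2 := fun X hX =>
    rest_bound hSIG hFP hc0 hσ hσc hσ50 hσ1 hσ125 hz S t ht0 (fun l => (hmm l).1) ha0 hti
      (by rw [hR]; linarith) hX
  -- bound of the integrand
  have htail : ∀ ξ ∈ Ioi s0, ‖KI θ t i j ξ‖ ≤ (t i - t j) * M * ξ ^ (-2 : ℝ) := by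
    intro ξ hξ
    have hξ0 : 0 < ξ := lt_trans hs0p hξ
    have hX : z * u ≤ ξ ^ 2 := by
      rw [← hs0sq]
      have : s0 ≤ ξ := le_of_lt hξ
      gcongr
    have h2 := hrest (ξ ^ 2) hX
    have h3 := kr_le h0 h1 (x := t i * ξ ^ 2) (y := t j * ξ ^ 2) (by positivity) (by gcongr)
    rw [Real.norm_eq_abs]
    unfold KI
    rw [abs_mul]
    calc |kr θ (t i * ξ ^ 2) (t j * ξ ^ 2)| * |∏ l ∈ S, f0 θ (t l * ξ ^ 2)|
        ≤ (t i * ξ ^ 2 - t j * ξ ^ 2) * (M / (ξ ^ 2) ^ 2) := by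
          have : 0 ≤ t i * ξ ^ 2 - t j * ξ ^ 2 := le_trans (abs_nonneg _) h3
          gcongr
      _ = (t i - t j) * M * ξ ^ (-2 : ℝ) := by
          have : ξ ^ (-2 : ℝ) = (ξ ^ 2)⁻¹ := by
            rw [Real.rpow_neg hξ0.le]
            norm_num
          rw [this]
          field_simp
  have hbint : IntegrableOn (fun ξ : ℝ => (t i - t j) * M * ξ ^ (-2 : ℝ)) (Ioi s0) :=
    (integrableOn_Ioi_rpow_of_lt (by norm_num) hs0p).const_mul _
  have hbval : ∫ ξ in Ioi s0, (t i - t j) * M * ξ ^ (-2 : ℝ) = (t i - t j) * (M / s0) := by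
    rw [integral_const_mul, integral_Ioi_rpow_of_lt (by norm_num) hs0p]
    have : s0 ^ ((-2 : ℝ) + 1) = s0⁻¹ := by
      rw [show ((-2 : ℝ) + 1) = -1 by norm_num, Real.rpow_neg_one]
    rw [this]
    field_simp
    norm_num
  have hae : ∀ᵐ ξ ∂(volume.restrict (Ioi s0)), ‖KI θ t i j ξ‖ ≤ (t i - t j) * M * ξ ^ (-2 : ℝ) :=
    (ae_restrict_iff' measurableSet_Ioi).2 (Filter.Eventually.of_forall htail)
  have hintT : IntegrableOn (KI θ t i j) (Ioi s0) :=
    Integrable.mono' hbint hcont.aestronglyMeasurable.restrict hae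
  have hint0 : IntegrableOn (KI θ t i j) (Ioi 0) := by
    rw [← Ioc_union_Ioi_eq_Ioi hs0p.le]
    exact (hcont.integrableOn_Ioc).union hintT
  have hint4 : IntegrableOn (KI θ t i j) (Ioi 4) :=
    hint0.mono_set (Ioi_subset_Ioi (by norm_num))
  have htailint : -((t i - t j) * (M / s0)) ≤ ∫ ξ in Ioi s0, KI θ t i j ξ := by
    have := norm_integral_le_of_norm_le hbint hae
    rw [hbval, Real.norm_eq_abs] at this
    linarith [(abs_le.1 this).1]
  -- sign in the middle
  have hmid : 0 ≤ ∫ ξ in (4 : ℝ)..s0, KI θ t i j ξ := by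
    apply intervalIntegral.integral_nonneg_of_ae_restrict hs04.le
    refine (ae_restrict_iff' measurableSet_Icc).2 ?_
    have hne : ∀ᵐ ξ : ℝ ∂volume, ξ ≠ s0 := by
      have : volume ({s0} : Set ℝ) = 0 := Real.volume_singleton
      exact (compl_mem_ae_iff.2 this)
    filter_upwards [hne] with ξ hξne hξ
    have hξ0 : 0 < ξ := by linarith [hξ.1]
    have hξs : ξ < s0 := lt_of_le_of_ne hξ.2 hξne
    have hX : ξ ^ 2 < z * u := by
      rw [← hs0sq]
      gcongr
    have hx : t i * ξ ^ 2 < z := by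
      have : t i * ξ ^ 2 < t i * (z * u) := by gcongr
      have e : t i * (z * u) = z * (t i * u) := by ring
      rw [e, hau, mul_one] at this
      exact this
    have hk := (hkr1 (t i * ξ ^ 2) (t j * ξ ^ 2) (by positivity) (by gcongr) hx).2
    have hp : 0 ≤ ∏ l ∈ S, f0 θ (t l * ξ ^ 2) := Finset.prod_nonneg fun l _ => by
      refine (hpos _ (mul_nonneg (ht0 l) (sq_nonneg ξ)) (lt_of_le_of_lt ?_ hx)).le
      exact mul_le_mul_of_nonneg_right (hmm l).1 (sq_nonneg ξ)
    exact mul_nonneg hk.le hp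
  -- main part
  have hlow : (t i - t j) * (ρ * Real.exp (-(128 * l8))) ≤ ∫ ξ in (0 : ℝ)..4, KI θ t i j ξ := by
    have hcoef : 0 ≤ (t i - t j) * (ρ * Real.exp (-(128 * l8))) := by
      have : 0 < t i - t j := by linarith
      positivity
    have h2 : ∫ ξ in (0 : ℝ)..4, ((t i - t j) * (ρ * Real.exp (-(128 * l8)))) *
        (ξ ^ 2 * Real.exp (-ξ ^ 2 / 2)) ≤ ∫ ξ in (0 : ℝ)..4, KI θ t i j ξ := by
      apply intervalIntegral.integral_mono_on (by norm_num)
      · exact (by fun_prop : Continuous fun ξ : ℝ => ((t i - t j) * (ρ * Real.exp (-(128 * l8)))) *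
          (ξ ^ 2 * Real.exp (-ξ ^ 2 / 2))).intervalIntegrable _ _
      · exact hcont.intervalIntegrable _ _
      · intro ξ hξ
        have hξ16 : ξ ^ 2 ≤ 16 := by nlinarith [hξ.1, hξ.2]
        have hX0 : 0 ≤ ξ ^ 2 := sq_nonneg ξ
        have hx8 : t i * ξ ^ 2 ≤ 1 / 8 := by nlinarith
        rcases eq_or_lt_of_le hξ.1 with h | h
        · rw [← h]
          have e : KI θ t i j 0 = 0 := by
            have e0 : ∀ c : ℝ, c * 0 ^ 2 = 0 := fun c => by ring
            unfold KI kr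
            simp only [e0]
            ring
          rw [e]
          simp
        have hξ2 : 0 < ξ ^ 2 := by positivity
        have hyx : t j * ξ ^ 2 < t i * ξ ^ 2 := by gcongr
        have hk := (hkr1 (t i * ξ ^ 2) (t j * ξ ^ 2) (by positivity) hyx (by linarith)).1
        have hr := hρr (t i * ξ ^ 2) (t j * ξ ^ 2) (by positivity) hyx.le hx8
        have hall := (hKCC hRL θ z m xW xD yN hFA n t (ξ ^ 2) 16 hSx hX0 hξ16).2 (1 / 128) l8
          (128 * l8) (by norm_num) (fun l => le_trans (hmm l).1 hti) (by linarith)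
          (by norm_num; norm_num at hl8; exact hl8) (by linarith)
        have hprod : f0 θ (t i * ξ ^ 2) * (f0 θ (t j * ξ ^ 2) * ∏ l ∈ S, f0 θ (t l * ξ ^ 2)) =
            ∏ l, f0 θ (t l * ξ ^ 2) := by
          rw [hS, Finset.mul_prod_erase (Finset.univ.erase i) (fun l => f0 θ (t l * ξ ^ 2)) hjm,
            Finset.mul_prod_erase Finset.univ (fun l => f0 θ (t l * ξ ^ 2)) (Finset.mem_univ i)]
        have e : KI θ t i j ξ = (rr θ (t i * ξ ^ 2) - rr θ (t j * ξ ^ 2)) *
            ∏ l, f0 θ (t l * ξ ^ 2) := by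
          rw [← hprod]
          unfold KI
          rw [hk]
          ring
        rw [e]
        have e2 : (t i - t j) * (ρ * Real.exp (-(128 * l8))) * (ξ ^ 2 * Real.exp (-ξ ^ 2 / 2)) =
            (ρ * (t i * ξ ^ 2 - t j * ξ ^ 2)) * Real.exp (-(ξ ^ 2) / 2 - 128 * l8) := by
          have : -(ξ ^ 2) / 2 - 128 * l8 = -ξ ^ 2 / 2 + -(128 * l8) := by ring
          rw [this, Real.exp_add]
          ring
        rw [e2]
        have h6 : 0 ≤ ρ * (t i * ξ ^ 2 - t j * ξ ^ 2) := by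
          have : 0 < t i * ξ ^ 2 - t j * ξ ^ 2 := by linarith
          positivity
        exact mul_le_mul hr hall (Real.exp_pos _).le (le_trans h6 hr)
    refine le_trans ?_ h2
    rw [intervalIntegral.integral_const_mul]
    have := main_int
    nlinarith
  have hsplit1 := intervalIntegral.integral_interval_add_Ioi hint0 hint4
  have hsplit2 := intervalIntegral.integral_interval_add_Ioi hint4 hintT
  have hnum := tail_num hu128 hz hz16 hσ125 hσ50
  have hnum' : M / s0 ≤ 46 * (128 * z) * Real.exp (-(126 * σ1 * z)) + 9e-13 := hnum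
  have hD : 0 < t i - t j := by linarith
  have hexp0 : 0 < (128 * z) * Real.exp (-(126 * σ1 * z)) := by positivity
  have hlt : M / s0 < ρ * Real.exp (-(128 * l8)) := by
    refine lt_of_le_of_lt hnum' (lt_of_lt_of_le ?_ hmain)
    have e1 : 46 * (128 * z) * Real.exp (-(126 * σ1 * z)) =
      46 * ((128 * z) * Real.exp (-(126 * σ1 * z))) := by ring
    have e2 : 100 * (128 * z) * Real.exp (-(126 * σ1 * z)) =
      100 * ((128 * z) * Real.exp (-(126 * σ1 * z))) := by ring
    rw [e1, e2]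
    have : (9e-13 : ℝ) < 1e-12 := by norm_num
    linarith
  have hfin : (t i - t j) * (M / s0) < (t i - t j) * (ρ * Real.exp (-(128 * l8))) :=
    mul_lt_mul_of_pos_left hlt hD
  linarith

end Pool.Agent.Helper38.PT
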