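import Pool.Agent.Helper53.PT.GoalsC
import Pool.Agent.Helper53.PT.B

/-!
# PT-TAY: Taylor evaluation with error
-/

namespace Pool.Agent.Helper38.PT

open Pool.Agent.Helper53.PT

theorem mn_eq (a b : ℕ) : N.mn a b = min a b := by
  unfold N.mn
  by_cases h : a ≤ b
  · rw [Nat.ble_eq_true_of_le h, cond_true, min_eq_left h]
  · have hb : Nat.ble a b = false := by
      cases hb : Nat.ble a b
      · rfl
      · exact absurd (Nat.le_of_ble_eq_true hb) h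
    rw [hb, cond_false, min_eq_right (le_of_not_ge h)]

theorem lt_fl (n m : ℕ) (hm : 0 < m) : (n : ℝ) / m < ((n / m : ℕ) : ℝ) + 1 := by
  have hm' : (0 : ℝ) < m := by exact_mod_cast hm
  rw [div_lt_iff₀ hm']
  have h : n < (n / m + 1) * m := by
    have h1 := Nat.div_add_mod n m
    have h2 := Nat.mod_lt n hm
    nlinarith
  exact_mod_cast h

theorem pn (S : ℕ) : ((N.pp S : ℕ) : ℝ) - ((N.np S : ℕ) : ℝ) = (S : ℝ) - 2 ^ 40 ∧
    (N.pp S = 0 ∨ N.np S = 0) := by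
  have h1 : N.pp S = S - 1099511627776 := rfl
  have h2 : N.np S = 1099511627776 - S := rfl
  rw [h1, h2]
  rcases le_total S 1099511627776 with h | h
  · rw [Nat.sub_eq_zero_of_le h, Nat.cast_sub h]
    refine ⟨?_, Or.inl rfl⟩
    push_cast
    norm_num
  · rw [Nat.sub_eq_zero_of_le h, Nat.cast_sub h]
    refine ⟨?_, Or.inr rfl⟩
    push_cast
    norm_num

theorem rnd (S n m : ℕ) (hm : 0 < m) :
    |(((N.np S * n / m : ℕ) : ℝ) - ((N.pp S * n / m : ℕ) : ℝ)) -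
      (-(((S : ℝ) - 2 ^ 40) * (n / m)))| ≤ 1 := by
  obtain ⟨h1, h2⟩ := pn S
  have hm' : (0 : ℝ) < m := by exact_mod_cast hm
  rcases h2 with h2 | h2
  · rw [h2] at h1 ⊢
    rw [Nat.zero_mul, Nat.zero_div, Nat.cast_zero, sub_zero, ← h1]
    have h3 : ((N.np S * n / m : ℕ) : ℝ) ≤ ((N.np S * n : ℕ) : ℝ) / m := Nat.cast_div_le
    have h4 := lt_fl (N.np S * n) m hm
    have h5 : -((((0 : ℕ) : ℝ) - (N.np S : ℝ)) * ((n : ℝ) / m)) = ((N.np S * n : ℕ) : ℝ) / m := by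
      push_cast
      ring
    rw [h5, abs_le]
    constructor <;> linarith
  · rw [h2] at h1 ⊢
    rw [Nat.zero_mul, Nat.zero_div, Nat.cast_zero, zero_sub, ← h1]
    have h3 : ((N.pp S * n / m : ℕ) : ℝ) ≤ ((N.pp S * n : ℕ) : ℝ) / m := Nat.cast_div_le
    have h4 := lt_fl (N.pp S * n) m hm
    have h5 : -(((N.pp S : ℝ) - ((0 : ℕ) : ℝ)) * ((n : ℝ) / m)) = -(((N.pp S * n : ℕ) : ℝ) / m) := by
      push_cast
      ring
    rw [h5, abs_le]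
    constructor <;> linarith

/-- The error bound in real numbers. -/
theorem core (F Fc Fc0 F1 F2 T0 S T δ σ cub aS aT M v e : ℝ)
    (hδ0 : 0 ≤ δ) (hδ : δ ≤ 1 / 8)
    (h0 : |Fc0 - (T0 / 2 ^ 40 - 1)| ≤ 2⁻¹ ^ 38)
    (h1 : |σ * F1 - (S / 2 ^ 40 - 1)| ≤ 2⁻¹ ^ 38)
    (h2 : |F2 - (T / 2 ^ 40 - 1)| ≤ 2⁻¹ ^ 38)
    (ht : |Fc - (Fc0 - F1 / 2 * (σ * δ) - F2 / 4 * (σ * δ) ^ 2)| ≤ cub)
    (hσ : σ ^ 2 = 1)
    (hF : |F - Fc| ≤ (M + 1) / 2 ^ 40)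
    (hF1 : |F| ≤ 1)
    (hS : |aS - (-((S - 2 ^ 40) * (δ / 2)))| ≤ 1)
    (hT : |aT - (-((T - 2 ^ 40) * (δ ^ 2 / 4)))| ≤ 1)
    (hv : v = max (T0 + aS + aT) 0)
    (he : M + 23 + (2 ^ 40 * cub - 1) ≤ e) :
    |F - (v / 2 ^ 40 - 1)| + 2 / 2 ^ 40 ≤ e / 2 ^ 40 := by
  have k1 : |(σ * F1 - (S / 2 ^ 40 - 1)) * δ| ≤ 2⁻¹ ^ 38 * (1 / 8) := by
    rw [abs_mul, abs_of_nonneg hδ0]
    exact mul_le_mul h1 hδ hδ0 (by positivity)
  have hδ2 : δ ^ 2 ≤ 1 / 64 := by nlinarith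
  have k2 : |(F2 - (T / 2 ^ 40 - 1)) * δ ^ 2| ≤ 2⁻¹ ^ 38 * (1 / 64) := by
    rw [abs_mul, abs_of_nonneg (sq_nonneg δ)]
    exact mul_le_mul h2 hδ2 (sq_nonneg δ) (by positivity)
  have e1 : Fc0 - F1 / 2 * (σ * δ) - F2 / 4 * (σ * δ) ^ 2 =
      Fc0 - (σ * F1 * δ) / 2 - F2 * δ ^ 2 / 4 := by
    rw [mul_pow, hσ]
    ring
  rw [e1] at ht
  have main : |2 ^ 40 * (F + 1) - (T0 + aS + aT)| ≤ M + 8 + 2 ^ 40 * cub := by
    rw [abs_le] at *
    norm_num at *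
    constructor <;> nlinarith
  have hF0 : 0 ≤ 2 ^ 40 * (F + 1) := by
    have := (abs_le.1 hF1).1
    nlinarith
  have hm : |2 ^ 40 * (F + 1) - v| ≤ |2 ^ 40 * (F + 1) - (T0 + aS + aT)| := by
    rw [hv]
    rcases le_total 0 (T0 + aS + aT) with h | h
    · rw [max_eq_left h]
    · rw [max_eq_right h, sub_zero, abs_of_nonneg hF0, abs_of_nonneg (by linarith)]
      linarith
  have e2 : F - (v / 2 ^ 40 - 1) = (2 ^ 40 * (F + 1) - v) / 2 ^ 40 := by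
    field_simp
    ring
  rw [e2, abs_div, abs_of_pos (show (0 : ℝ) < 2 ^ 40 by positivity), ← add_div]
  gcongr
  linarith

/-- `err0 B k` without the constant. -/
def mE (B : N.Base) (k : ℕ) : ℕ :=
  min ((N.xgN k * N.xgN k * B.dm2 / 2 ^ 52) / 24 + 1)
    (min (146 * (N.xgN k * N.sxg k * B.dm3 / 2 ^ 66) / 1000 + 1) (B.h * 2 ^ 31))

theorem err0_eq (B : N.Base) (k : ℕ) : N.err0 B k = 17 + mE B k := by
  unfold N.err0 mE
  rw [mn_eq, mn_eq]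
  simp only [← Nat.shiftRight_eq_div_pow, ← Nat.shiftLeft_eq]
  rfl

theorem sxg_le (hSQ : GSQ) (k : ℕ) : √(xR k) ≤ (N.sxg k : ℝ) / 2 ^ 40 := by
  have h := (hSQ (N.xgN k * 2 ^ 54)).1
  have h1 : N.sxg k = N.sqU (N.xgN k * 2 ^ 54) := by
    unfold N.sxg
    rw [← Nat.shiftLeft_eq]
    rfl
  rw [h1]
  have h2 : (((N.xgN k * 2 ^ 54 : ℕ)) : ℝ) = xR k * (2 ^ 40) ^ 2 := by
    unfold xR aR
    push_cast
    field_simp
    norm_num
  rw [h2, Real.sqrt_mul' _ (by positivity), Real.sqrt_sq (by positivity)] at h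
  rw [le_div_iff₀ (by positivity)]
  exact h

theorem xR_nonneg (k : ℕ) : 0 ≤ xR k := by
  unfold xR aR
  positivity

theorem err_bd (hSQ : GSQ) {A : ℕ} {B : N.Base} {θ : ℝ} (bf : BaseFacts A B θ) (k : ℕ) {x : ℝ}
    (hx : 0 ≤ x) (hxk : x ≤ xR k) :
    |f0 θ x - f0 ((A : ℝ) / 8192) x| ≤ ((mE B k : ℝ) + 1) / 2 ^ 40 := by
  obtain ⟨h1, h2, h3⟩ := bf.l0 x hx
  have hm2 : (0 : ℝ) ≤ vR B.dm2 := by unfold vR; positivity
  have hm3 : (0 : ℝ) ≤ vR B.dm3 := by unfold vR; positivity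
  have g1 : |f0 θ x - f0 ((A : ℝ) / 8192) x| ≤
      ((((N.xgN k * N.xgN k * B.dm2 / 2 ^ 52) / 24 + 1 : ℕ) : ℝ) + 1) / 2 ^ 40 := by
    refine h1.trans ?_
    have a1 : x ^ 2 / 24 * vR B.dm2 ≤ xR k ^ 2 / 24 * vR B.dm2 := by gcongr
    refine a1.trans ?_
    have a2 := lt_fl (N.xgN k * N.xgN k * B.dm2) (2 ^ 52 * 24) (by norm_num)
    rw [← Nat.div_div_eq_div_mul] at a2
    have a3 : xR k ^ 2 / 24 * vR B.dm2 =
        (((N.xgN k * N.xgN k * B.dm2 : ℕ) : ℝ) / ((2 ^ 52 * 24 : ℕ) : ℝ)) / 2 ^ 40 := by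
      unfold xR aR vR
      push_cast
      ring
    rw [a3]
    gcongr
    push_cast at a2 ⊢
    linarith
  have g2 : |f0 θ x - f0 ((A : ℝ) / 8192) x| ≤
      (((146 * (N.xgN k * N.sxg k * B.dm3 / 2 ^ 66) / 1000 + 1 : ℕ) : ℝ) + 1) / 2 ^ 40 := by
    refine h2.trans ?_
    have b1 : √x ≤ (N.sxg k : ℝ) / 2 ^ 40 := (Real.sqrt_le_sqrt hxk).trans (sxg_le hSQ k)
    have a1 : 0.146 * (x * √x) * vR B.dm3 ≤ 0.146 * (xR k * ((N.sxg k : ℝ) / 2 ^ 40)) * vR B.dm3 := by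
      gcongr
      exact xR_nonneg k
    refine a1.trans ?_
    have a2 := lt_fl (N.xgN k * N.sxg k * B.dm3) (2 ^ 66) (by norm_num)
    have a4 := lt_fl (146 * (N.xgN k * N.sxg k * B.dm3 / 2 ^ 66)) 1000 (by norm_num)
    have a3 : 0.146 * (xR k * ((N.sxg k : ℝ) / 2 ^ 40)) * vR B.dm3 =
        (0.146 * (((N.xgN k * N.sxg k * B.dm3 : ℕ) : ℝ) / ((2 ^ 66 : ℕ) : ℝ))) / 2 ^ 40 := by
      unfold xR aR vR
      push_cast
      ring
    rw [a3]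
    gcongr
    rw [Nat.cast_mul] at a4
    push_cast at a2 a4 ⊢
    rw [div_lt_iff₀ (by norm_num)] at a4
    norm_num at a2 a4 ⊢
    nlinarith
  have g3 : |f0 θ x - f0 ((A : ℝ) / 8192) x| ≤ (((B.h * 2 ^ 31 : ℕ) : ℝ) + 1) / 2 ^ 40 := by
    refine h3.trans ?_
    have : (B.h : ℝ) / 512 = ((B.h * 2 ^ 31 : ℕ) : ℝ) / 2 ^ 40 := by
      push_cast
      ring
    rw [this]
    gcongr
    linarith
  unfold mE
  rcases min_choice ((N.xgN k * N.xgN k * B.dm2 / 2 ^ 52) / 24 + 1)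
    (min (146 * (N.xgN k * N.sxg k * B.dm3 / 2 ^ 66) / 1000 + 1) (B.h * 2 ^ 31)) with h | h
  · rw [h]; exact g1
  · rw [h]
    rcases min_choice (146 * (N.xgN k * N.sxg k * B.dm3 / 2 ^ 66) / 1000 + 1) (B.h * 2 ^ 31) with h | h
    · rw [h]; exact g2
    · rw [h]; exact g3

theorem mE_le {A : ℕ} {B : N.Base} {θ : ℝ} (bf : BaseFacts A B θ) (k : ℕ) : mE B k ≤ 2 ^ 37 := by
  have h := bf.h1
  calc mE B k ≤ B.h * 2 ^ 31 := (min_le_right _ _).trans (min_le_right _ _)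
    _ ≤ 64 * 2 ^ 31 := Nat.mul_le_mul_right _ h
    _ = 2 ^ 37 := by norm_num

theorem T0_le {A : ℕ} {B : N.Base} {θ : ℝ} (bf : BaseFacts A B θ) (k : ℕ) (hk : k ≤ 1152) :
    N.fld B.T0 k ≤ 2 ^ 41 + 4 := by
  have h1 := bf.t0 k hk
  have h2 := (aBD (θ := (A : ℝ) / 8192) (by linarith [bf.tc0]) bf.tc1 (xR_nonneg k)).1
  have h3 : (N.fld B.T0 k : ℝ) ≤ 2 ^ 41 + 4 := by
    rw [abs_le] at h1 h2
    unfold vR at h1
    obtain ⟨h1a, h1b⟩ := h1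
    norm_num at h1a h2 ⊢
    have h3 : (N.fld B.T0 k : ℝ) / 1099511627776 ≤ 2 + 1 / 274877906944 := by linarith [h2.2]
    rw [div_le_iff₀ (by norm_num)] at h3
    norm_num at h3
    exact h3
  exact_mod_cast h3

theorem PU_eq (hF : GFLD) {A : ℕ} {B : N.Base} {θ : ℝ} (bf : BaseFacts A B θ) (k : ℕ) (hk : k ≤ 1152) :
    N.fld (N.tPU B) k = N.fld B.T0 k + (17 + mE B k) := by
  have h1 := hF.1 (fun k => N.mn 17592186044415 (Nat.add (N.fld B.T0 k) (N.err0 B k))) 1153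
    (fun j _ => by
      rw [mn_eq]
      exact lt_of_le_of_lt (min_le_left _ _) (by norm_num)) k (by omega)
  have h2 : N.tPU B = N.build (fun k => N.mn 17592186044415 (Nat.add (N.fld B.T0 k) (N.err0 B k))) 1153 :=
    rfl
  rw [h2, h1, mn_eq, err0_eq]
  have h3 := T0_le bf k hk
  have h4 := mE_le bf k
  exact min_eq_right (by
    show N.fld B.T0 k + (17 + mE B k) ≤ _
    omega)

/-- The two numbers of `tayC`. -/
def tv (B : N.Base) (p k d S T : ℕ) : ℕ :=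
  (N.fld B.T0 k + (N.np S * d / 2 ^ (27 + p) + N.np T * (d * d) / 2 ^ (54 + 2 * p))) -
    (N.pp S * d / 2 ^ (27 + p) + N.pp T * (d * d) / 2 ^ (54 + 2 * p))

def te (B : N.Base) (p d E : ℕ) : ℕ := E + (d * (d * d) * B.m3R / 2 ^ (78 + 3 * p)) / 720

theorem tayC_eq {α : Type} (D : N.Tab) (p k d E S T : ℕ) (f : ℕ → ℕ → α) :
    N.tayC D p k d E S T f = f (tv D.B p k d S T) (te D.B p d E) := by
  unfold N.tayC tv te
  simp only [← Nat.shiftRight_eq_div_pow]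
  rfl

/-- Taylor at the grid point `k` with the distance `d`, sign `σ`. -/
theorem tay_side {A : ℕ} {B : N.Base} {θ : ℝ} (bf : BaseFacts A B θ) (p k k1 d S : ℕ) (σ x : ℝ)
    (hSQ : GSQ) (hσ : σ = 1 ∨ σ = -1) (hk : k ≤ 1152) (hx0 : 0 ≤ x) (hx1 : x ≤ xR k1)
    (hx : x = xR k + σ * ((d : ℝ) / 2 ^ (26 + p))) (hd : (d : ℝ) / 2 ^ (26 + p) ≤ 1 / 8)
    (hS : |σ * f1 ((A : ℝ) / 8192) (xR k) - ((S : ℝ) / 2 ^ 40 - 1)| ≤ 2⁻¹ ^ 38) :
    |f0 θ x - (vR (tv B p k d S (N.fld B.T2 k)) - 1)| + 2 / 2 ^ 40 ≤ vR (te B p d (23 + mE B k1)) := by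
  have hc0 : 0 < (A : ℝ) / 8192 := by linarith [bf.tc0]
  have hσ2 : σ ^ 2 = 1 := by rcases hσ with h | h <;> rw [h] <;> norm_num
  have hδ0 : 0 ≤ (d : ℝ) / 2 ^ (26 + p) := by positivity
  have hT := (bCH ((A : ℝ) / 8192) hc0 bf.tc1 (xR k) 1 0 0 0 (xR_nonneg k) one_pos le_rfl zero_le_one).2.2
    (σ * ((d : ℝ) / 2 ^ (26 + p))) (by rw [← hx]; exact hx0)
  rw [← hx] at hT
  have habs : |σ * ((d : ℝ) / 2 ^ (26 + p))| = (d : ℝ) / 2 ^ (26 + p) := by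
    rw [abs_mul, abs_of_nonneg hδ0]
    rcases hσ with h | h <;> rw [h] <;> norm_num
  rw [habs] at hT
  have hm3 := bf.m3.2
  have hcub : |f0 ((A : ℝ) / 8192) x - (f0 ((A : ℝ) / 8192) (xR k) -
      f1 ((A : ℝ) / 8192) (xR k) / 2 * (σ * ((d : ℝ) / 2 ^ (26 + p))) -
      f2 ((A : ℝ) / 8192) (xR k) / 4 * (σ * ((d : ℝ) / 2 ^ (26 + p))) ^ 2)| ≤
      ((d : ℝ) / 2 ^ (26 + p)) ^ 3 / 12 * (vR B.m3R / 60) := hT.trans (by gcongr)
  refine core (f0 θ x) (f0 ((A : ℝ) / 8192) x) (f0 ((A : ℝ) / 8192) (xR k))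
    (f1 ((A : ℝ) / 8192) (xR k)) (f2 ((A : ℝ) / 8192) (xR k)) (N.fld B.T0 k) S (N.fld B.T2 k)
    ((d : ℝ) / 2 ^ (26 + p)) σ (((d : ℝ) / 2 ^ (26 + p)) ^ 3 / 12 * (vR B.m3R / 60))
    (((N.np S * d / 2 ^ (27 + p) : ℕ) : ℝ) - ((N.pp S * d / 2 ^ (27 + p) : ℕ) : ℝ))
    (((N.np (N.fld B.T2 k) * (d * d) / 2 ^ (54 + 2 * p) : ℕ) : ℝ) -
      ((N.pp (N.fld B.T2 k) * (d * d) / 2 ^ (54 + 2 * p) : ℕ) : ℝ)) (mE B k1)
    ((tv B p k d S (N.fld B.T2 k) : ℕ) : ℝ) ((te B p d (23 + mE B k1) : ℕ) : ℝ) hδ0 hd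
    (bf.t0 k hk) hS (bf.t2 k hk) hcub hσ2 (err_bd hSQ bf k1 hx0 hx1)
    (aBD (by linarith [bf.th0]) bf.th1 hx0).1 ?_ ?_ ?_ ?_
  · have h := rnd S d (2 ^ (27 + p)) (by positivity)
    have e : ((S : ℝ) - 2 ^ 40) * ((d : ℝ) / ((2 ^ (27 + p) : ℕ) : ℝ)) =
        ((S : ℝ) - 2 ^ 40) * ((d : ℝ) / 2 ^ (26 + p) / 2) := by
      push_cast
      rw [show 27 + p = (26 + p) + 1 by omega, pow_succ]
      ring
    rw [e] at h
    exact h
  · have h := rnd (N.fld B.T2 k) (d * d) (2 ^ (54 + 2 * p)) (by positivity)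
    have e : ((N.fld B.T2 k : ℝ) - 2 ^ 40) * (((d * d : ℕ) : ℝ) / ((2 ^ (54 + 2 * p) : ℕ) : ℝ)) =
        ((N.fld B.T2 k : ℝ) - 2 ^ 40) * (((d : ℝ) / 2 ^ (26 + p)) ^ 2 / 4) := by
      push_cast
      rw [show 54 + 2 * p = (26 + p) + (26 + p) + 2 by omega, pow_add, pow_add (2 : ℝ) (26 + p)]
      ring
    rw [e] at h
    exact h
  · unfold tv
    rcases le_total (N.pp S * d / 2 ^ (27 + p) + N.pp (N.fld B.T2 k) * (d * d) / 2 ^ (54 + 2 * p))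
      (N.fld B.T0 k + (N.np S * d / 2 ^ (27 + p) +
        N.np (N.fld B.T2 k) * (d * d) / 2 ^ (54 + 2 * p))) with h | h
    · rw [Nat.cast_sub h]
      have h' : ((N.pp S * d / 2 ^ (27 + p) + N.pp (N.fld B.T2 k) * (d * d) / 2 ^ (54 + 2 * p) : ℕ) : ℝ)
        ≤ ((N.fld B.T0 k + (N.np S * d / 2 ^ (27 + p) +
        N.np (N.fld B.T2 k) * (d * d) / 2 ^ (54 + 2 * p)) : ℕ) : ℝ) := by exact_mod_cast h
      rw [Nat.cast_add, Nat.cast_add, Nat.cast_add] at h'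
      rw [Nat.cast_add, Nat.cast_add, Nat.cast_add, max_eq_left (by linarith)]
      ring
    · rw [Nat.sub_eq_zero_of_le h]
      have h' : ((N.fld B.T0 k + (N.np S * d / 2 ^ (27 + p) +
        N.np (N.fld B.T2 k) * (d * d) / 2 ^ (54 + 2 * p)) : ℕ) : ℝ) ≤
        ((N.pp S * d / 2 ^ (27 + p) + N.pp (N.fld B.T2 k) * (d * d) / 2 ^ (54 + 2 * p) : ℕ) : ℝ) := by
        exact_mod_cast h
      rw [Nat.cast_add, Nat.cast_add, Nat.cast_add] at h'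
      rw [Nat.cast_zero, max_eq_right (by linarith)]
  · unfold te
    have h := lt_fl (d * (d * d) * B.m3R) (2 ^ (78 + 3 * p) * 720) (by positivity)
    rw [← Nat.div_div_eq_div_mul] at h
    have e : (2 : ℝ) ^ 40 * (((d : ℝ) / 2 ^ (26 + p)) ^ 3 / 12 * (vR B.m3R / 60)) =
        ((d * (d * d) * B.m3R : ℕ) : ℝ) / ((2 ^ (78 + 3 * p) * 720 : ℕ) : ℝ) := by
      unfold vR
      push_cast
      rw [show 78 + 3 * p = (26 + p) + (26 + p) + (26 + p) by omega, pow_add (2 : ℝ) (26 + p + (26 + p)),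
        pow_add (2 : ℝ) (26 + p) (26 + p)]
      ring
    rw [e]
    push_cast at h ⊢
    linarith

theorem gTAY : GTAY := by
  intro hSQ hFLD hGRID A B I θ z th p x _ hx
  have bf := th.bf
  obtain ⟨-, -, hstep, -, hcell, -⟩ := hGRID
  have hX : x >>> p < 2 ^ 32 := by
    rw [Nat.shiftRight_eq_div_pow]
    exact Nat.div_lt_of_lt_mul (by rw [← pow_add, add_comm p 32]; exact hx)
  obtain ⟨k, d0, hk, hd0, hxk, -, hon⟩ := hcell (x >>> p) hX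
  obtain ⟨hst, hs17, hs24⟩ := hstep k hk
  set s := N.shf k with hs
  have hp : 0 < 2 ^ p := by positivity
  -- the place of `x` in the cell
  have hlow : N.xgN k * 2 ^ p ≤ x := by
    have h1 : N.xgN k ≤ x / 2 ^ p := by rw [← Nat.shiftRight_eq_div_pow, hxk]; omega
    exact (Nat.le_div_iff_mul_le hp).1 h1
  have hupp : x < N.xgN (k + 1) * 2 ^ p := by
    have h1 : x / 2 ^ p < N.xgN (k + 1) := by
      rw [← Nat.shiftRight_eq_div_pow, hxk, hst]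
      omega
    exact (Nat.div_lt_iff_lt_mul hp).1 h1
  have hxx : (x : ℝ) / 2 ^ (26 + p) = (x : ℝ) / 2 ^ p / 2 ^ 26 := by
    rw [pow_add]
    ring
  have hx0 : (0 : ℝ) ≤ (x : ℝ) / 2 ^ (26 + p) := by positivity
  have hx1 : (x : ℝ) / 2 ^ (26 + p) ≤ xR (k + 1) := by
    rw [hxx]
    unfold xR aR
    gcongr
    rw [div_le_iff₀ (by positivity)]
    exact_mod_cast hupp.le
  have hE : Nat.add 6 (Nat.sub (N.fld (N.tPU B) (Nat.succ k)) (N.fld B.T0 (Nat.succ k))) =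
      23 + mE B (k + 1) := by
    rw [show Nat.succ k = k + 1 from rfl, PU_eq hFLD bf (k + 1) (by omega)]
    show 6 + (N.fld B.T0 (k + 1) + (17 + mE B (k + 1)) - N.fld B.T0 (k + 1)) = _
    omega
  have hfrc := hFLD.2.2.2.2.2.2
  have hpow : 2 ^ p * 2 ^ s = 2 * 2 ^ (s + p - 1) := by
    rw [← pow_add, ← pow_succ']
    congr 1
    omega
  have hdd : ∀ d : ℕ, d ≤ 2 ^ (s + p - 1) → (d : ℝ) / 2 ^ (26 + p) ≤ 1 / 8 := by
    intro d hd
    rw [div_le_iff₀ (by positivity)]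
    have h1 : (2 : ℕ) ^ (s + p - 1) ≤ 2 ^ (23 + p) := Nat.pow_le_pow_right (by norm_num) (by omega)
    have h2 : (d : ℝ) ≤ 2 ^ (23 + p) := by exact_mod_cast hd.trans h1
    have h3 : (1 : ℝ) / 8 * 2 ^ (26 + p) = 2 ^ (23 + p) := by
      rw [pow_add, pow_add]
      ring
    rw [h3]
    exact h2
  have htay : ∀ (α : Type) (f : ℕ → ℕ → α), N.tay (N.mkTab B I) p x f =
      cond (Nat.ble (x - N.xgN k * 2 ^ p) (2 ^ (s + p - 1)))
        (f (tv B p k (x - N.xgN k * 2 ^ p) (N.fld B.T1 k) (N.fld B.T2 k))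
          (te B p (x - N.xgN k * 2 ^ p) (23 + mE B (k + 1))))
        (f (tv B p (k + 1) (N.xgN (k + 1) * 2 ^ p - x) (2199023255552 - N.fld B.T1 (k + 1))
            (N.fld B.T2 (k + 1)))
          (te B p (N.xgN (k + 1) * 2 ^ p - x) (23 + mE B (k + 1)))) := by
    intro α f
    unfold N.tay
    rw [show Nat.shiftRight x p = x >>> p from rfl, hon, hfrc]
    rw [tayC_eq, tayC_eq]
    have e1 : (N.mkTab B I).PU = N.tPU B := by simp only [N.mkTab]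
    have e2 : (N.mkTab B I).B = B := by simp only [N.mkTab]
    rw [e1, e2, hE]
    have s1 : ∀ a b : ℕ, Nat.shiftLeft a b = a * 2 ^ b := fun a b => Nat.shiftLeft_eq a b
    rw [s1, s1, s1, one_mul]
    rfl
  by_cases hcase : x - N.xgN k * 2 ^ p ≤ 2 ^ (s + p - 1)
  · refine ⟨_, _, fun α f => by rw [htay α f, Nat.ble_eq_true_of_le hcase, cond_true], ?_⟩
    refine tay_side bf p k (k + 1) (x - N.xgN k * 2 ^ p) (N.fld B.T1 k) 1 _ hSQ (Or.inl rfl) hk.le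
      hx0 hx1 ?_ (hdd _ hcase) ?_
    · rw [Nat.cast_sub hlow]
      unfold xR aR
      push_cast
      rw [pow_add]
      field_simp
      ring
    · rw [one_mul]
      exact bf.t1 k hk.le
  · have hb : Nat.ble (x - N.xgN k * 2 ^ p) (2 ^ (s + p - 1)) = false := by
      cases hb : Nat.ble (x - N.xgN k * 2 ^ p) (2 ^ (s + p - 1))
      · rfl
      · exact absurd (Nat.le_of_ble_eq_true hb) hcase
    refine ⟨_, _, fun α f => by rw [htay α f, hb, cond_false], ?_⟩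
    have hlen : N.xgN (k + 1) * 2 ^ p - x ≤ 2 ^ (s + p - 1) := by
      have h1 : N.xgN (k + 1) * 2 ^ p = N.xgN k * 2 ^ p + 2 * 2 ^ (s + p - 1) := by
        rw [hst, add_mul, mul_comm (2 ^ s), hpow]
      omega
    refine tay_side bf p (k + 1) (k + 1) (N.xgN (k + 1) * 2 ^ p - x)
      (2199023255552 - N.fld B.T1 (k + 1)) (-1) _ hSQ (Or.inr rfl) hk hx0 hx1 ?_ (hdd _ hlen) ?_
    · rw [Nat.cast_sub hupp.le]
      unfold xR aR
      push_cast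
      rw [pow_add]
      field_simp
      ring
    · have h1 := bf.t1 (k + 1) hk
      unfold vR at h1
      rcases le_total (N.fld B.T1 (k + 1)) 2199023255552 with h | h
      · rw [Nat.cast_sub h, ← abs_neg]
        have e : -(-1 * f1 ((A : ℝ) / 8192) (xR (k + 1)) -
            ((((2199023255552 : ℕ) : ℝ) - (N.fld B.T1 (k + 1) : ℝ)) / 2 ^ 40 - 1)) =
            f1 ((A : ℝ) / 8192) (xR (k + 1)) - ((N.fld B.T1 (k + 1) : ℝ) / 2 ^ 40 - 1) := by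
          push_cast
          ring
        rw [e]
        exact h1
      · rw [Nat.sub_eq_zero_of_le h, Nat.cast_zero]
        have h2 := (aBD (θ := (A : ℝ) / 8192) (by linarith [bf.tc0]) bf.tc1 (xR_nonneg (k + 1))).2.2.2.1
        have h3 : (2199023255552 : ℝ) ≤ N.fld B.T1 (k + 1) := by exact_mod_cast h
        have h4 : (2 : ℝ) ≤ (N.fld B.T1 (k + 1) : ℝ) / 2 ^ 40 := by
          rw [le_div_iff₀ (by positivity)]
          linarith
        rw [abs_le] at h1 h2 ⊢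
        constructor <;> linarith [h1.1, h1.2, h2.1, h2.2]

end Pool.Agent.Helper38.PT
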